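import Pool.Agent.Y6.G.Stm

/-!
# EP-CHN: the coefficients of the chain (adaptation of Pool.Agent.Y344.EF.Chn, helper344)
-/

set_option autoImplicit false

namespace Pool.Agent.Y972.EP.Chn

open Pool.Agent.Y6.G
open Pool.Agent.Y6.M (Frame)

lemma aM_zero : αM 0 = 10 ^ 100 := by
  show ((10 ^ 100 : ℕ) : ℝ) = 10 ^ 100
  rw [Nat.cast_pow]
  norm_num

lemma aM_succ (n : ℕ) : αM (n + 1) = αM n ^ 61 := by
  show ((al n ^ 61 : ℕ) : ℝ) = ((al n : ℕ) : ℝ) ^ 61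
  rw [Nat.cast_pow]

lemma aM_ge (n : ℕ) : 10 ^ 100 ≤ αM n := by
  induction n with
  | zero => rw [aM_zero]
  | succ n ih =>
    rw [aM_succ]
    have h1 : (1 : ℝ) ≤ αM n := le_trans (by norm_num) ih
    exact ih.trans (le_self_pow₀ h1 (by omega))

lemma aM_big (n : ℕ) : 100 * αM n ≤ αM (n + 1) := by
  rw [aM_succ]
  have h0 := aM_ge n
  have h1 : (1 : ℝ) ≤ αM n := le_trans (by norm_num) h0
  have h2 : αM n ^ 2 ≤ αM n ^ 61 := pow_le_pow_right₀ h1 (by omega)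
  have h3 : (100 : ℝ) ≤ αM n := le_trans (by norm_num) h0
  nlinarith

lemma key {a β ρ c G : ℝ} (ha : 0 < a) (hβ : 100 * a ≤ β) (hρ : ρ = √(a ^ 2 + β ^ 2))
    (hc1 : 2 ≤ c) (hc2 : c ≤ 5 / 2) (hG : G = c * ((a + β) / ρ - 1)) :
    a + ρ ≤ 2 * (β - a) ∧ β - a ≤ a + ρ ∧ a ≤ G * (β - a) ∧ G * (a + ρ) ≤ 3 * a := by
  have hβ0 : 0 < β := by linarith
  have hρ0 : 0 < ρ := by rw [hρ]; positivity
  have hρ2 : ρ ^ 2 = a ^ 2 + β ^ 2 := by rw [hρ]; exact Real.sq_sqrt (by positivity)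
  have h1 : β ≤ ρ := by nlinarith
  have h2 : ρ ≤ a + β := by nlinarith [mul_pos ha hβ0]
  set t := (a + β) / ρ - 1 with ht
  have hD : 0 < ρ * (a + β + ρ) := by positivity
  have ht2 : t = 2 * a * β / (ρ * (a + β + ρ)) := by
    rw [ht]
    field_simp
    nlinarith
  have hlow : a / 2 ≤ t * (β - a) := by
    rw [ht2, div_mul_eq_mul_div, le_div_iff₀ hD]
    have h3 : ρ * (a + β + ρ) ≤ 2 * (a + β) ^ 2 := by nlinarith
    have h4 : 2 * (a + β) ^ 2 ≤ 4 * (β * (β - a)) := by nlinarith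
    have h5 : a / 2 * (ρ * (a + β + ρ)) ≤ a / 2 * (4 * (β * (β - a))) :=
      mul_le_mul_of_nonneg_left (h3.trans h4) (by positivity)
    linarith
  have hup : t * (a + ρ) ≤ 51 / 50 * a := by
    rw [ht2, div_mul_eq_mul_div, div_le_iff₀ hD]
    have h3 : 2 * (a + ρ) ≤ 51 / 50 * (a + β + ρ) := by linarith
    have h4 : β * (2 * (a + ρ)) ≤ ρ * (51 / 50 * (a + β + ρ)) :=
      mul_le_mul h1 h3 (by positivity) hρ0.le
    have h5 := mul_le_mul_of_nonneg_left h4 ha.le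
    linarith
  have ht0 : 0 ≤ t := by rw [ht2]; positivity
  refine ⟨by linarith, by linarith, ?_, ?_⟩
  · rw [hG, mul_assoc]
    nlinarith
  · rw [hG, mul_assoc]
    have h6 : 0 ≤ t * (a + ρ) := by positivity
    nlinarith

theorem t_CHN : S_CHN := by
  intro hV h hF
  set c : ℝ := 2 * Real.pi * (1 / (2 * √2)) with hc
  have hs0 : (0 : ℝ) < √2 := by positivity
  have hs2 : √2 ^ 2 = 2 := Real.sq_sqrt (by norm_num)
  have hcs : c * √2 = Real.pi := by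
    rw [hc]
    field_simp
  have hp1 := Real.pi_gt_d2
  have hp2 := Real.pi_lt_d2
  have hs1 : √2 ≤ 3 / 2 := by nlinarith
  have hs3 : 7 / 5 ≤ √2 := by nlinarith
  have hc0 : 0 < c := by rw [hc]; positivity
  have hc1 : 2 ≤ c := by nlinarith
  have hc2 : c ≤ 5 / 2 := by nlinarith
  have hk : ∀ n, αM n + ρM n ≤ 2 * (αM (n + 1) - αM n) ∧ αM (n + 1) - αM n ≤ αM n + ρM n ∧
      αM n ≤ ‖GM h n‖ * (αM (n + 1) - αM n) ∧ ‖GM h n‖ * (αM n + ρM n) ≤ 3 * αM n := by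
    intro n
    have h0 : 0 < αM n := lt_of_lt_of_le (by norm_num) (aM_ge n)
    exact key h0 (aM_big n) rfl hc1 hc2 ((hV h hF).1 n)
  refine ⟨?_, aM_succ, fun n => ?_, fun n => (hk n).2.1, fun n => (hk n).1,
    fun n => (hk n).2.2.1, fun n => (hk n).2.2.2⟩
  · rw [aM_zero]
  · have h0 : 0 < αM n := lt_of_lt_of_le (by norm_num) (aM_ge n)
    have h1 := aM_big n
    show 0 < αM (n + 1) - αM n
    linarith

end Pool.Agent.Y972.EP.Chn
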