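import Pool.Agent.Y6.G.Stm
import Pool.Agent.Y67.EF.WTM

/-!
# EP-WTM: the weights of the concrete system (from `Pool.Agent.Y67.EF.WTM`, helper67)
-/

set_option autoImplicit false

open Set Filter Topology
open scoped ComplexConjugate

namespace Pool.Agent.Y972.EP.Wtm

open Pool.Agent.Y6.G
open Pool.Agent.Y6.M (qd mq Kz Ker Adm Dat TSol Wt KSol cX cY Uth εc x0 Mains MDat Z3 C3 Coef dt cr
  cj kc nsq len adv leray Kop IsField IsSol energy enstr Md hs br Frame cK sgz)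
open Pool.Agent.Y6.F (NM cd S_CODE)

lemma αM_one (n : ℕ) : 1 ≤ αM n := by
  unfold αM
  exact_mod_cast al_pos n

theorem t_WTM : Pool.Agent.Y6.G.S_WTM := by
  intro hLV hCD h hh
  obtain ⟨-, -, -, h4, -, -, h7, -⟩ := hLV
  obtain ⟨-, -, -, hc, -, -⟩ := hCD
  refine ⟨Pool.Agent.Y67.EF.WTM.NM_one, ⟨18 * Real.pi, 1, Pool.Agent.Y67.EF.WTM.size hh⟩,
    ⟨3, Pool.Agent.Y67.EF.WTM.summ⟩, ⟨2, 2, fun i hi => (h7 i hi).2⟩,
    ⟨1, 1, fun i hi => ?_⟩, ⟨2, fun j hj => ?_⟩⟩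
  · have h1 := (h7 i hi).1
    have h2 := αM_one (lvM i)
    rw [one_mul, pow_one]
    nlinarith
  · have h1 := (h4 j hj).1
    have h2 : NM j ≤ (lvM j : ℝ) := by
      unfold NM
      rw [h1]
      exact_mod_cast hc j
    refine h2.trans ?_
    have h3 : lvM j ≤ 2 ^ (lvM j + 1) :=
      (Nat.lt_two_pow_self).le.trans (Nat.pow_le_pow_right (by norm_num) (by omega))
    exact_mod_cast h3

end Pool.Agent.Y972.EP.Wtm
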